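import Pool.Agent.Y862.SQ.Stm3
import Pool.Agent.Y954.SQ.Collr

set_option autoImplicit false

/-!
# Project SQ (helper862), third part, job COL0: collisions with the index `(0, 0)` on average
(helper417, after helper954)
-/

namespace Pool.Agent.Y417.SQ.Col0

open Finset Pool.Agent.Y862.SQ Pool.Agent.Y954.SQ

theorem t_COL0 : S_COL0 := by
  intro K
  have hK0 : (0 : ℝ) ≤ K := Nat.cast_nonneg K
  set E2 := Real.exp (2 * K) with hE2
  have hE20 : 0 < E2 := Real.exp_pos _
  refine ⟨3 * (2 * K * E2 + 1) + 1, by positivity, fun w hw => ?_⟩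
  have hw0 : (0 : ℝ) < w := by exact_mod_cast hw
  have hw1 : (1 : ℝ) ≤ w := by exact_mod_cast hw
  obtain ⟨l0, hl0⟩ := param K w hw
  refine ⟨2 ^ l0, fun M hM a' ha' => ?_⟩
  obtain ⟨g, hgdef⟩ : ∃ g : ℕ × ℤ, g = (0, 0) := ⟨_, rfl⟩
  have hg : g.1 ≤ M := by rw [hgdef]; exact Nat.zero_le _
  have hg2 : |g.2| ≤ M := by
    rw [hgdef, abs_zero]
    exact Int.natCast_nonneg M
  rw [← hgdef]
  have hM1 : 1 ≤ M := le_trans Nat.one_le_two_pow hM
  have hM0 : (1 : ℝ) ≤ M := by exact_mod_cast hM1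
  obtain ⟨l, hl⟩ : ∃ l, l = Nat.log 2 M := ⟨_, rfl⟩
  have hll : l0 ≤ l := by
    rw [hl]
    exact (Nat.le_log_iff_pow_le (by norm_num) (by omega)).2 hM
  obtain ⟨hl1, hl2, hl3⟩ := hl0 l hll
  have h2l : (2 : ℝ) ^ l ≤ M := by
    have : 2 ^ l ≤ M := by
      rw [hl]
      exact Nat.pow_log_le_self 2 (by omega)
    exact_mod_cast this
  set E := Real.exp (12 * K / l) with hE
  have hE1 : 1 ≤ E := Real.one_le_exp (by positivity)
  have hone : ∀ s : ℤ, 1 ≤ DR K w g (a', s) := by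
    intro s
    unfold DR
    calc (1 : ℝ) = ∏ _p ∈ (Rr g (a', s)).natAbs.primeFactors.filter (fun p => w < p), (1 : ℝ) :=
          prod_const_one.symm
      _ ≤ _ := by
        apply prod_le_prod
        · intro n _
          positivity
        · intro n _
          have : (0 : ℝ) ≤ (K : ℝ) / n := by positivity
          linarith
  refine (sum_le_sum_of_subset_of_nonneg (filter_subset _ _) (fun s _ _ => by
    have := hone s
    linarith)).trans ?_
  have h1 := sum_le_sum fun s hs => dr_le K w M l hw hl1 hl hM1 g a' hg ha' hg2 s hs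
  rw [← mul_sum] at h1
  have h2 := sum_bound K w M (l ^ 2) (2 * ((a' : ℤ) - g.1) ^ 2 - 2 * g.2)
    (((a' : ℤ) - g.1) ^ 4 + 2 * ((a' : ℤ) - g.1) ^ 2 * g.2 + g.2 ^ 2) hw
  have h3 := h1.trans (mul_le_mul_of_nonneg_left h2 (by positivity))
  rw [← hE] at h3
  rw [sum_sub_distrib, sum_const, nsmul_eq_mul, mul_one]
  have hcard : ((Icc (-(M : ℤ)) M).card : ℝ) = 2 * M + 1 := by
    rw [Int.card_Icc]
    have : ((M : ℤ) + 1 - -(M : ℤ)).toNat = 2 * M + 1 := by omega
    rw [this]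
    push_cast
    ring
  rw [hcard]
  -- the two small quantities
  have hA : Real.exp (2 * K / w) - 1 ≤ 2 * K / w * E2 := by
    refine exp_aux.trans ?_
    apply mul_le_mul_of_nonneg_left _ (by positivity)
    apply Real.exp_le_exp.2
    rw [div_le_iff₀ hw0]
    nlinarith
  have hA2 : Real.exp (2 * K / w) ≤ E2 := by
    apply Real.exp_le_exp.2
    rw [div_le_iff₀ hw0]
    nlinarith
  have hB : (E - 1) * Real.exp (2 * K / w) ≤ 1 / w := by
    calc (E - 1) * Real.exp (2 * K / w) ≤ 1 / (w * E2) * E2 :=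
          mul_le_mul hl2 hA2 (Real.exp_pos _).le (by positivity)
      _ = 1 / w := by field_simp
  have hE3 : E ≤ 2 := by
    have h4 : 1 / (w * E2) ≤ 1 := by
      rw [div_le_one (by positivity)]
      have : 1 ≤ E2 := Real.one_le_exp (by positivity)
      nlinarith
    linarith
  have hC : E * (((l ^ 2 : ℕ) : ℝ) + 1) ^ (2 * K) ≤ M / w := by
    rw [le_div_iff₀ hw0]
    refine le_trans ?_ (hl3.trans h2l)
    gcongr
  have hD : E * Real.exp (2 * K / w) - 1 ≤ (2 * K * E2 + 1) / w := by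
    have e : E * Real.exp (2 * K / w) - 1 =
        (Real.exp (2 * K / w) - 1) + (E - 1) * Real.exp (2 * K / w) := by ring
    rw [e, add_div]
    apply add_le_add _ hB
    refine hA.trans (le_of_eq ?_)
    ring
  have hF : (2 * (M : ℝ) + 1) * (E * Real.exp (2 * K / w) - 1) ≤
      3 * M * ((2 * K * E2 + 1) / w) := by
    refine (mul_le_mul_of_nonneg_left hD (by positivity)).trans ?_
    apply mul_le_mul_of_nonneg_right _ (by positivity)
    linarith
  calc ∑ s ∈ Icc (-(M : ℤ)) M, DR K w g (a', s) - (2 * (M : ℝ) + 1)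
      ≤ E * ((2 * M + 1) * Real.exp (2 * K / w) + (((l ^ 2 : ℕ) : ℝ) + 1) ^ (2 * K)) -
        (2 * (M : ℝ) + 1) := by linarith
    _ = (2 * (M : ℝ) + 1) * (E * Real.exp (2 * K / w) - 1) +
        E * (((l ^ 2 : ℕ) : ℝ) + 1) ^ (2 * K) := by ring
    _ ≤ 3 * M * ((2 * K * E2 + 1) / w) + M / w := add_le_add hF hC
    _ = (3 * (2 * K * E2 + 1) + 1) * M / w := by ring

end Pool.Agent.Y417.SQ.Col0
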